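import Pool.Agent.helper72.UP.Spec

/-!
# Project UP, row DEC (second prover)
-/

set_option autoImplicit false

namespace Pool.Agent.helper72.UP

open Finset

theorem DEC (h : RAT_stmt) : DEC_stmt := by
  intro n i d hn hi hn1
  have hnR : (0 : ℝ) < n := by exact_mod_cast hn1
  induction d with
  | zero =>
    rw [Nat.add_zero]
    have : -(4 * ((0 : ℕ) : ℝ) * (((0 : ℕ) : ℝ) - 1) / n) = 0 := by
      rw [Nat.cast_zero, mul_zero, zero_mul, zero_div, neg_zero]
    rw [this, Real.exp_zero, mul_one]
  | succ d ih =>
    by_cases hd : 2 * (i + d) ≤ n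
    · have h1 := h n (i + d) (by omega) hd (by omega)
      rw [← Nat.add_assoc]
      refine h1.trans ?_
      have h2 : (uu n (i + d) : ℝ) * Real.exp (-(2 * (4 * (((i + d : ℕ) : ℕ) : ℝ) - n) / n)) ≤
          (uu n i * Real.exp (-(4 * (d : ℝ) * ((d : ℝ) - 1) / n))) * Real.exp (-(8 * (d : ℝ) / n)) := by
        refine mul_le_mul ih (Real.exp_le_exp.2 (neg_le_neg ?_)) (Real.exp_pos _).le (by positivity)
        refine div_le_div_of_nonneg_right ?_ hnR.le
        have h3 : (n : ℝ) ≤ 4 * (i : ℝ) := by exact_mod_cast hn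
        push_cast
        linarith
      refine h2.trans (le_of_eq ?_)
      rw [mul_assoc, ← Real.exp_add]
      congr 2
      push_cast
      field_simp
      ring
    · have h0 : uu n (i + (d + 1)) = 0 := by
        unfold uu
        rw [Nat.choose_eq_zero_of_lt (show n / 2 < i + (d + 1) by omega), Nat.mul_zero]
      rw [h0, Nat.cast_zero]
      positivity

end Pool.Agent.helper72.UP
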