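import Pool.Agent.helper72.UP.Spec

/-!
# Project UP, row UPB (second prover)
-/

set_option autoImplicit false

namespace Pool.Agent.helper72.UP

open Finset

theorem UPB_zer {n : ℕ} (x : Fin n → ℝ) (k : ℕ) : zer x k + 1 ≤ cnt x 0 := by
  classical
  have h : insert (∅ : Finset (Fin n)) (univ.filter fun s : Finset (Fin n) => s.Nonempty ∧ #s ≤ k ∧ ∑ i ∈ s, x i = 0) ⊆
      univ.filter fun S : Finset (Fin n) => ∑ i ∈ S, x i = 0 := by
    intro s hs
    rw [mem_filter]
    refine ⟨mem_univ s, ?_⟩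
    rcases mem_insert.1 hs with h | h
    · rw [h, sum_empty]
    · exact (mem_filter.1 h).2.2.2
  have hc := card_le_card h
  rw [card_insert_of_notMem (fun h => by
    obtain ⟨-, h2, -⟩ := mem_filter.1 h
    exact absurd h2 not_nonempty_empty)] at hc
  unfold zer cnt
  refine le_trans (le_of_eq ?_) (hc.trans (le_of_eq ?_))
  · congr 1
  · rfl

theorem UPB_eq (h2 : BAL_stmt) (h5 : EQC_stmt) (n k : ℕ) (x : Fin n → ℝ) (hx : ∀ i, x i ≠ 0) (c : ℝ)
    (hc : 0 < c) (hall : ∀ i, |x i| = c) : zer x k ≤ VV n k := by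
  classical
  rw [h5 n k x c hc hall]
  unfold VV uu
  apply sum_le_sum
  intro i _
  have hab : #{a : Fin n | 0 < x a} + #{a : Fin n | x a < 0} = n := by
    have g1 : (univ.filter fun a : Fin n => x a < 0) = univ.filter fun a : Fin n => ¬ 0 < x a := by
      apply filter_congr
      intro a _
      constructor
      · intro h; exact not_lt.2 h.le
      · intro h; exact lt_of_le_of_ne (not_lt.1 h) (hx a)
    have g2 := card_filter_add_card_filter_not (s := (univ : Finset (Fin n))) (fun a => 0 < x a)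
    rw [card_univ, Fintype.card_fin] at g2
    rw [g1]
    exact g2
  have h := h2 (#{a : Fin n | 0 < x a}) (#{a : Fin n | x a < 0}) i
  rw [hab] at h
  exact h

theorem UPB (h1 : VAN_stmt) (h2 : BAL_stmt) (h3 : STA_stmt) (h4 : FLP_stmt) (h5 : EQC_stmt) : UPB_stmt := by
  classical
  intro n k x hk hx hT
  by_cases hall : ∀ i j, |x i| = |x j|
  · rcases isEmpty_or_nonempty (Fin n) with he | ⟨⟨i₀⟩⟩
    · exact UPB_eq h2 h5 n k x hx 1 one_pos (fun i => (he.false i).elim)
    · exact UPB_eq h2 h5 n k x hx |x i₀| (abs_pos.2 (hx i₀)) (fun i => hall i i₀)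
  · push Not at hall
    obtain ⟨i, j, hij⟩ := hall
    have hlt : ∃ i j, |x i| < |x j| := by
      rcases lt_or_gt_of_ne hij with h | h
      · exact ⟨i, j, h⟩
      · exact ⟨j, i, h⟩
    obtain ⟨i, j, hlt⟩ := hlt
    obtain ⟨T, hcT⟩ := h4 n x
    have hs := h3 n (fun i => |x i|) i j T (fun a => abs_pos.2 (hx a)) hlt
    rw [← hcT] at hs
    have hz := UPB_zer x k
    have hv := h1 n k hk
    have hn : 0 < n := Nat.pos_of_ne_zero (by rintro rfl; exact i.elim0)
    obtain ⟨m, rfl⟩ : ∃ m, n = m + 1 := ⟨n - 1, by omega⟩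
    rw [Nat.add_sub_cancel] at hs
    have hz' := Nat.mul_le_mul_left (m + 1) hz
    rw [← hv] at hs hT
    have hfin : (m + 1) * zer x k ≤ (m + 1) * VV (m + 1) k := by
      nlinarith
    exact Nat.le_of_mul_le_mul_left hfin (by omega)

end Pool.Agent.helper72.UP
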